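import Pool.Agent.Run7.h723.OG.Iface2

/-!
# Piece AV4 of project OG (helper723, page MP_e4b521_co): the average over 4-sets
-/

set_option autoImplicit false

namespace Pool.H237.OG

open Pool.H723.OG Finset

section

variable {V : Type} [Fintype V] (G : SimpleGraph V)

open Classical in
/-- the vertices different from `v` and not adjacent to `v` -/
noncomputable def WW (v : V) : Finset V := univ.filter fun u => u ≠ v ∧ ¬ G.Adj u v

open Classical in
/-- the neighbours of `v` -/
noncomputable def NN (v : V) : Finset V := univ.filter fun u => G.Adj u v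

lemma card_NN (v : V) : (NN G v).card = dg G v := by
  unfold NN dg
  congr

lemma card_WW (v : V) : (WW G v).card = Fintype.card V - 1 - dg G v := by
  classical
  have h1 : WW G v = (insert v (NN G v))ᶜ := by
    ext u
    simp [WW, NN]
  have h2 : v ∉ NN G v := by simp [NN]
  rw [h1, card_compl, card_insert_of_notMem h2, card_NN]
  omega

lemma sum_lev (P : Finset (Finset V)) (j : ℕ) : ∑ D ∈ P, (lev G D j).card =
    ∑ v, ((by classical exact P.filter (fun D => v ∈ lev G D j)) : Finset (Finset V)).card := by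
  classical
  have h1 : ∀ v : V, (P.filter (fun D => v ∈ lev G D j)).card =
      ∑ D ∈ P, if v ∈ lev G D j then 1 else 0 := fun v => card_filter _ _
  have h2 : ∀ D : Finset V, (lev G D j).card = ∑ v : V, if v ∈ lev G D j then 1 else 0 := by
    intro D
    rw [← card_filter]
    congr 1
    ext v
    simp
  calc ∑ D ∈ P, (lev G D j).card = ∑ D ∈ P, ∑ v : V, (if v ∈ lev G D j then 1 else 0) :=
        sum_congr rfl fun D _ => h2 D
    _ = ∑ v : V, ∑ D ∈ P, (if v ∈ lev G D j then 1 else 0) := sum_comm
    _ = _ := by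
        refine sum_congr rfl fun v _ => ?_
        rw [← h1 v]

lemma lev0 (v : V) (P : Finset (Finset V)) (hP : P = powersetCard 4 univ) :
    ((by classical exact P.filter (fun D => v ∈ lev G D 0)) : Finset (Finset V)).card ≤
      (Fintype.card V - 1 - dg G v).choose 4 := by
  classical
  rw [← card_WW, ← card_powersetCard]
  apply card_le_card
  intro D hD
  rw [mem_filter, hP, mem_powersetCard] at hD
  obtain ⟨⟨_, h1⟩, h2⟩ := hD
  unfold lev at h2
  rw [mem_filter] at h2
  obtain ⟨_, h3, h4⟩ := h2
  unfold nb at h4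
  rw [card_eq_zero] at h4
  rw [mem_powersetCard]
  refine ⟨fun u hu => ?_, h1⟩
  unfold WW
  rw [mem_filter]
  refine ⟨mem_univ _, ?_, ?_⟩
  · rintro rfl
    exact h3 hu
  · intro h5
    have h6 : u ∈ D.filter (fun u => G.Adj u v) := mem_filter.2 ⟨hu, h5⟩
    rw [h4] at h6
    exact absurd h6 (notMem_empty _)

lemma lev1 (v : V) (P : Finset (Finset V)) (hP : P = powersetCard 4 univ) :
    ((by classical exact P.filter (fun D => v ∈ lev G D 1)) : Finset (Finset V)).card ≤
      dg G v * (Fintype.card V - 1 - dg G v).choose 3 := by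
  classical
  rw [← card_WW, ← card_powersetCard, ← card_NN, ← card_product]
  refine le_trans (card_le_card ?_)
    (card_image_le (f := fun q : V × Finset V => insert q.1 q.2))
  intro D hD
  rw [mem_filter, hP, mem_powersetCard] at hD
  obtain ⟨⟨_, h1⟩, h2⟩ := hD
  unfold lev at h2
  rw [mem_filter] at h2
  obtain ⟨_, h3, h4⟩ := h2
  unfold nb at h4
  rw [card_eq_one] at h4
  obtain ⟨u, hu⟩ := h4
  have hu1 : u ∈ D ∧ G.Adj u v := by
    have h6 : u ∈ D.filter (fun u => G.Adj u v) := by
      rw [hu]
      exact mem_singleton_self u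
    exact mem_filter.1 h6
  rw [mem_image]
  refine ⟨(u, D.erase u), ?_, insert_erase hu1.1⟩
  rw [mem_product, mem_powersetCard]
  refine ⟨?_, ?_, ?_⟩
  · unfold NN
    exact mem_filter.2 ⟨mem_univ _, hu1.2⟩
  · intro x hx
    obtain ⟨hx1, hx2⟩ := mem_erase.1 hx
    unfold WW
    rw [mem_filter]
    refine ⟨mem_univ _, ?_, ?_⟩
    · rintro rfl
      exact h3 hx2
    · intro h5
      have h6 : x ∈ D.filter (fun u => G.Adj u v) := mem_filter.2 ⟨hx2, h5⟩
      rw [hu, mem_singleton] at h6
      exact hx1 h6
  · simp only [card_erase_of_mem hu1.1, h1]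

end

theorem t_AV4 : S_AV4 := by
  intro V _ _ G hn
  classical
  set P : Finset (Finset V) := powersetCard 4 univ with hP
  have hPc : P.card = (Fintype.card V).choose 4 := by
    rw [hP, card_powersetCard, card_univ]
  have hPpos : 0 < P.card := by
    rw [hPc]
    exact Nat.choose_pos hn
  have hsum : ∑ D ∈ P, cost2 G D ≤
      8 * (Fintype.card V).choose 4 + ∑ v, h4 (Fintype.card V) (dg G v) := by
    have h1 : ∑ D ∈ P, cost2 G D =
        ∑ D ∈ P, 2 * D.card + 2 * ∑ D ∈ P, (lev G D 0).card + ∑ D ∈ P, (lev G D 1).card := by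
      simp only [cost2, sum_add_distrib, mul_sum]
    have h2 : ∑ D ∈ P, 2 * D.card = 8 * (Fintype.card V).choose 4 := by
      have : ∀ D ∈ P, 2 * D.card = 8 := by
        intro D hD
        rw [hP, mem_powersetCard] at hD
        rw [hD.2]
      rw [sum_congr rfl this, sum_const, hPc, smul_eq_mul, mul_comm]
    have h3 : ∑ v, h4 (Fintype.card V) (dg G v) =
        2 * ∑ v, (Fintype.card V - 1 - dg G v).choose 4 +
          ∑ v, dg G v * (Fintype.card V - 1 - dg G v).choose 3 := by
      simp only [h4, sum_add_distrib, mul_sum]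
    rw [h1, h2, h3, sum_lev, sum_lev]
    have h5 := sum_le_sum (fun v (_ : v ∈ (univ : Finset V)) => lev0 G v P hP)
    have h6 := sum_le_sum (fun v (_ : v ∈ (univ : Finset V)) => lev1 G v P hP)
    omega
  by_contra hcon
  push Not at hcon
  have h7 : ∑ D ∈ P, (8 * (Fintype.card V).choose 4 + ∑ v, h4 (Fintype.card V) (dg G v)) <
      ∑ D ∈ P, cost2 G D * (Fintype.card V).choose 4 :=
    sum_lt_sum_of_nonempty (card_pos.1 hPpos) fun D _ => hcon D
  rw [sum_const, ← sum_mul, smul_eq_mul, hPc, mul_comm] at h7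
  have h8 := Nat.mul_le_mul_right ((Fintype.card V).choose 4) hsum
  omega

end Pool.H237.OG
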