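import Pool.Agent.Run7.h723.OG.Iface2

/-!
# Piece NUM of project OG (helper723, page MP_e4b521_co): numerical check
-/

set_option autoImplicit false

namespace Pool.H237.OG

open Pool.H723.OG

def D4 (m : ℕ) : ℕ := m * (m - 1) * (m - 2) * (m - 3) / 24
def D3 (m : ℕ) : ℕ := m * (m - 1) * (m - 2) / 6

lemma choose4 (m : ℕ) : m.choose 4 = D4 m := by
  rw [Nat.choose_eq_descFactorial_div_factorial, D4]
  simp only [Nat.descFactorial, Nat.factorial]
  congr 1
  simp only [Nat.sub_zero]
  ring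

lemma choose3 (m : ℕ) : m.choose 3 = D3 m := by
  rw [Nat.choose_eq_descFactorial_div_factorial, D3]
  simp only [Nat.descFactorial, Nat.factorial]
  congr 1
  simp only [Nat.sub_zero]
  ring

def g4 (n d : ℕ) : ℕ := 2 * D4 (n - 1 - d) + d * D3 (n - 1 - d)
def G4 (n d : ℕ) : ℕ := g4 n d + g4 n (n - 1 - d)

lemma H4_eq (n d : ℕ) : H4 n d = G4 n d := by
  simp only [H4, G4, h4, g4, choose4, choose3]

def allB (p : ℕ → Bool) : ℕ → Bool
  | 0 => true
  | n + 1 => p n && allB p n

lemma allB_spec (p : ℕ → Bool) (n : ℕ) (h : allB p n = true) : ∀ i < n, p i = true := by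
  induction n with
  | zero => intro i hi; omega
  | succ n ih =>
    simp only [allB, Bool.and_eq_true] at h
    intro i hi
    rcases Nat.lt_succ_iff_lt_or_eq.1 hi with h1 | h1
    · exact ih h.2 i h1
    · rw [h1]; exact h.1

def aa (n : ℕ) : ℕ := (3 * ((2 * n + 9) / 3 - n / 2 - 2) + 2) / 2

def chk (n : ℕ) : Bool :=
  Nat.ble n 11 ||
  allB (fun d => (Nat.ble d 0 || Nat.ble (n - 1) d || Nat.ble (G4 n d) (G4 n 1)) &&
    (Nat.ble (d + 1) (aa n) || Nat.ble n (d + aa n) ||
      Nat.ble ((n - 2) * G4 n d + 2 * G4 n 1 + 1) ((2 * ((2 * n + 9) / 3) - 14) * D4 n))) (n + 1)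

lemma chk_all : allB chk 120 = true := by decide +kernel

theorem t_NUM : S_NUM := by
  intro n h1 h2
  have h3 := allB_spec chk 120 chk_all n (by omega)
  simp only [chk, Bool.or_eq_true, Nat.ble_eq] at h3
  rcases h3 with h3 | h3
  · omega
  have h4 := allB_spec _ _ h3
  refine ⟨fun d hd1 hd2 => ?_, fun d hd1 hd2 => ?_⟩
  · have h5 := h4 d (by omega)
    simp only [Bool.or_eq_true, Bool.and_eq_true, Nat.ble_eq] at h5
    rw [H4_eq, H4_eq]
    rcases h5.1 with (h6 | h6) | h6
    · omega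
    · omega
    · exact h6
  · have h5 := h4 d (by omega)
    simp only [Bool.or_eq_true, Bool.and_eq_true, Nat.ble_eq] at h5
    rw [H4_eq, H4_eq, choose4]
    change aa n ≤ d at hd1
    change d + aa n + 1 ≤ n at hd2
    rcases h5.2 with (h6 | h6) | h6
    · omega
    · omega
    · exact h6

end Pool.H237.OG
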